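import Pool.Agent.H41.Frog4

set_option autoImplicit false

open MeasureTheory Filter Pool.Agent.H41.Frog
open scoped Topology NNReal

theorem Pool.Agent.Results.MP_32e6ae_pr.Fails.result :
    ∃ (V : Type) (_ : Countable V) (_ : MeasurableSpace V) (_ : DiscreteMeasurableSpace V)
      (T : SimpleGraph V) (o : V),
      Infinite V ∧ T.IsTree ∧ (∀ v, (T.neighborSet v).Finite) ∧
      (∀ᵐ η ∂walkLaw T,
        Tendsto (fun n : ℕ => (T.dist o (walk η o n) : ℝ) / n) atTop (𝓝 1)) ∧
      ∀ lam : ℝ≥0, 0 < lam → ¬ Transient T o lam :=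
  ⟨Vx, inferInstance, inferInstance, inferInstance, T, o, inf, isTree, fun v => (locfin v).1,
    speed, fun _ => not_transient⟩
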